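import Pool.Agent.Hhelper47.Recon.NonIso

set_option autoImplicit false
set_option linter.all false

open Matroid

namespace Pool.Agent.Results.MP_160273_co.BinaryPair

/-- Isomorphism of matroids: a bijection between the ground sets which carries the independent
sets onto the independent sets. -/
def MatroidIso {α β : Type} (M : Matroid α) (N : Matroid β) : Prop :=
  ∃ f : M.E ≃ N.E, ∀ I : Set M.E,
    (M.Indep (Subtype.val '' I) ↔ N.Indep (Subtype.val '' (f '' I)))

/-- The matroid is representable over the field with two elements. -/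
def Binary {α : Type} (M : Matroid α) : Prop :=
  ∃ (k : ℕ) (φ : α → (Fin k → ZMod 2)), ∀ I ⊆ M.E, (M.Indep I ↔ LinearIndepOn (ZMod 2) φ I)

/-- The matroid is reconstructible: every matroid `N` on the same ground set all of whose single
element deletions are isomorphic to the corresponding ones of `M` is isomorphic to `M`. -/
def Reconstructible {α : Type} (M : Matroid α) : Prop :=
  ∀ N : Matroid α, N.E = M.E → (∀ e ∈ M.E, MatroidIso (N ＼ {e}) (M ＼ {e})) → MatroidIso N M

theorem iso_of_bijOn {α : Type} (M N : Matroid α) (f : α → α) (hf : Set.BijOn f M.E N.E)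
    (h : ∀ I ⊆ M.E, (M.Indep I ↔ N.Indep (f '' I))) : MatroidIso M N := by
  refine ⟨hf.equiv f, fun I => ?_⟩
  rw [h (Subtype.val '' I) (by rintro _ ⟨x, -, rfl⟩; exact x.2)]
  have h1 : f '' (Subtype.val '' I) = Subtype.val '' ((hf.equiv f) '' I) := by
    ext y
    constructor
    · rintro ⟨_, ⟨x, hx, rfl⟩, rfl⟩
      exact ⟨hf.equiv f x, ⟨x, hx, rfl⟩, rfl⟩
    · rintro ⟨_, ⟨x, hx, rfl⟩, rfl⟩
      exact ⟨x, ⟨x, hx, rfl⟩, rfl⟩
  rw [h1]

theorem iso_symm {α β : Type} {M : Matroid α} {N : Matroid β} (h : MatroidIso M N) :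
    MatroidIso N M := by
  obtain ⟨f, hf⟩ := h
  refine ⟨f.symm, fun I => ?_⟩
  rw [hf (f.symm '' I), Equiv.image_symm_image]

theorem bij_of_iso {M N : Matroid (Fin 30)} (hM : M.E = Set.univ) (hN : N.E = Set.univ)
    (h : MatroidIso M N) :
    ∃ f : Fin 30 → Fin 30, Function.Bijective f ∧
      ∀ I : Set (Fin 30), (M.Indep I ↔ N.Indep (f '' I)) := by
  obtain ⟨g, hg⟩ := h
  have hmM : ∀ x, x ∈ M.E := fun x => by rw [hM]; trivial
  have hmN : ∀ x, x ∈ N.E := fun x => by rw [hN]; trivial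
  refine ⟨fun x => (g ⟨x, hmM x⟩).1, ⟨?_, ?_⟩, ?_⟩
  · intro x y hxy
    have h1 := g.injective (Subtype.ext hxy)
    exact congrArg Subtype.val h1
  · intro y
    obtain ⟨x, hx⟩ := g.surjective ⟨y, hmN y⟩
    exact ⟨x.1, congrArg Subtype.val hx⟩
  · intro I
    have h1 := hg {x | x.1 ∈ I}
    have h2 : (Subtype.val '' {x : M.E | x.1 ∈ I}) = I := by
      ext x
      constructor
      · rintro ⟨y, hy, rfl⟩
        exact hy
      · intro hx
        exact ⟨⟨x, hmM x⟩, hx, rfl⟩
    have h3 : (Subtype.val '' (g '' {x : M.E | x.1 ∈ I})) = (fun x => (g ⟨x, hmM x⟩).1) '' I := by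
      ext y
      constructor
      · rintro ⟨_, ⟨x, hx, rfl⟩, rfl⟩
        exact ⟨x.1, hx, rfl⟩
      · rintro ⟨x, hx, rfl⟩
        exact ⟨g ⟨x, hmM x⟩, ⟨⟨x, hmM x⟩, hx, rfl⟩, rfl⟩
    rw [h2, h3] at h1
    exact h1

open Pool.Agent.Hhelper47.Recon in
/-- There are two binary matroids `M`, `N` on a common ground set of 30 elements, neither a
circuit nor free, with `M ＼ e` isomorphic to `N ＼ e` for every element `e`, which are not
isomorphic. -/
theorem result :
    ∃ M N : Matroid (Fin 30), M.E = Set.univ ∧ N.E = Set.univ ∧ Binary M ∧ Binary N ∧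
      ¬ M.IsCircuit M.E ∧ ¬ M.Indep M.E ∧ ¬ N.IsCircuit N.E ∧ ¬ N.Indep N.E ∧
      (∀ e : Fin 30, MatroidIso (N ＼ {e}) (M ＼ {e})) ∧ ¬ MatroidIso N M ∧
      ¬ Reconstructible M := by
  obtain ⟨M, hME, ⟨kM, φM, hMb⟩, hM⟩ := exists_matroid B1 B1_zero B1_add B1_ne
  obtain ⟨N, hNE, ⟨kN, φN, hNb⟩, hN⟩ := exists_matroid B2 B2_zero B2_add B2_ne
  have circ : ∀ (P : Matroid (Fin 30)) (B : Fin 16 → Fin 30 → Bool), P.E = Set.univ →
      (∀ I : Set (Fin 30), P.Indep I ↔ ∀ l : Fin 16, l ≠ 0 → ∃ x, x ∉ I ∧ B l x = true) →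
      (∃ l : Fin 16, l ≠ 0 ∧ B l 0 = false) → ¬ P.IsCircuit P.E := by
    intro P B hPE hP hB hc
    obtain ⟨l, hl, hl0⟩ := hB
    have h1 : P.Indep (P.E \ {0}) := by
      by_contra h2
      have h3 : P.Dep (P.E \ {0}) := ⟨h2, Set.diff_subset⟩
      have h4 := hc.2 h3 Set.diff_subset (show (0 : Fin 30) ∈ P.E from hPE ▸ Set.mem_univ _)
      exact h4.2 rfl
    obtain ⟨x, hx, hBx⟩ := (hP _).1 h1 l hl
    rw [hPE] at hx
    have hx0 : x = 0 := by
      by_contra hx0
      exact hx ⟨Set.mem_univ _, hx0⟩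
    rw [hx0, hl0] at hBx
    exact absurd hBx (by decide)
  have dep : ∀ (P : Matroid (Fin 30)) (B : Fin 16 → Fin 30 → Bool), P.E = Set.univ →
      (∀ I : Set (Fin 30), P.Indep I ↔ ∀ l : Fin 16, l ≠ 0 → ∃ x, x ∉ I ∧ B l x = true) →
      ¬ P.Indep P.E := by
    intro P B hPE hP h2
    obtain ⟨x, hx, -⟩ := (hP _).1 h2 1 (by decide)
    exact hx (hPE ▸ Set.mem_univ _)
  have iso : ∀ e : Fin 30, MatroidIso (N ＼ {e}) (M ＼ {e}) := by
    intro e
    have hinj : Function.Injective (fMap e) := fun a b hab => fMap_inj e a b hab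
    have hbij : Function.Bijective (fMap e) := Finite.injective_iff_bijective.1 hinj
    have hmaps : ∀ x, x ≠ e → fMap e x ≠ e := fun x hx => fMap_ne e x hx
    refine iso_symm (iso_of_bijOn _ _ (fMap e) ⟨?_, hinj.injOn, ?_⟩ ?_)
    · intro x hx
      rw [Matroid.delete_ground, hME] at hx
      rw [Matroid.delete_ground, hNE]
      exact ⟨trivial, hmaps x hx.2⟩
    · intro y hy
      rw [Matroid.delete_ground, hNE] at hy
      obtain ⟨x, rfl⟩ := hbij.surjective y
      refine ⟨x, ?_, rfl⟩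
      rw [Matroid.delete_ground, hME]
      refine ⟨trivial, ?_⟩
      rintro (rfl : x = e)
      obtain ⟨z, hz⟩ := hbij.surjective x
      by_cases hzx : z = x
      · rw [hzx] at hz
        exact hy.2 hz
      · exact fMap_ne x z hzx hz
    · intro I hI
      rw [Matroid.delete_ground, hME] at hI
      have heI : e ∉ I := fun h' => (hI h').2 rfl
      have heJ : e ∉ fMap e '' I := by
        rintro ⟨x, hx, hxe⟩
        exact hmaps x (fun h => heI (h ▸ hx)) hxe
      rw [Matroid.delete_indep_iff, Matroid.delete_indep_iff,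
        and_iff_left (Set.disjoint_singleton_right.2 heI),
        and_iff_left (Set.disjoint_singleton_right.2 heJ)]
      exact deck_iso M N hM hN e I heI
  have noiso : ¬ MatroidIso N M := by
    intro h
    obtain ⟨f, hf, hfI⟩ := bij_of_iso hME hNE (iso_symm h)
    exact no_iso M N hM hN f hf hfI
  exact ⟨M, N, hME, hNE, ⟨kM, φM, hMb⟩, ⟨kN, φN, hNb⟩,
    circ M B1 hME hM (by decide +kernel), dep M B1 hME hM,
    circ N B2 hNE hN (by decide +kernel), dep N B2 hNE hN, iso, noiso,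
    fun h => noiso (h N (hNE.trans hME.symm) fun e _ => iso e)⟩

end Pool.Agent.Results.MP_160273_co.BinaryPair
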